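import Pool.Agent.H91.RC.Arith

/-!
# Two bounds for the units modulo `d`

The number of the units modulo `d` which are close to zero, and the quotient of `d` and its totient.
-/

set_option autoImplicit false

namespace Pool.Agent.H91.RC

open Finset

theorem sum_min_reflect (G : ℕ → ℝ) (hG : ∀ j, 0 ≤ G j) (N : ℕ) :
    ∑ j ∈ range N, G (min j (N - 1 - j)) ≤ 2 * ∑ j ∈ range N, G j := by
  have h1 : ∀ j ∈ range N, G (min j (N - 1 - j)) ≤ G j + G (N - 1 - j) := by
    intro j _
    rcases min_choice j (N - 1 - j) with h | h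
    · rw [h]; linarith [hG (N - 1 - j)]
    · rw [h]; linarith [hG j]
  have h2 := sum_le_sum h1
  rw [sum_add_distrib, sum_range_reflect G N] at h2
  linarith

theorem tele_one (μ : ℝ) (hμ : 0 ≤ μ) (N : ℕ) :
    2 * ∑ j ∈ range N, max 0 (μ - ((j + 1 : ℕ) : ℝ)) ≤ μ ^ 2 - (max 0 (μ - N)) ^ 2 := by
  induction N with
  | zero => simp [hμ]
  | succ n ih =>
    rw [sum_range_succ, mul_add]
    have h : 2 * max 0 (μ - ((n + 1 : ℕ) : ℝ)) ≤ (max 0 (μ - n)) ^ 2 -
        (max 0 (μ - ((n + 1 : ℕ) : ℝ))) ^ 2 := by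
      push_cast
      rcases le_total 0 (μ - ((n : ℝ) + 1)) with h | h
      · rw [max_eq_right h, max_eq_right (by linarith)]
        nlinarith
      · rw [max_eq_left h]
        nlinarith [sq_nonneg (max 0 (μ - (n : ℝ)))]
    linarith

theorem tele_two (μ : ℝ) (hμ : 0 ≤ μ) (N : ℕ) :
    4 * ∑ j ∈ range N, max 0 (μ - ((2 * j + 1 : ℕ) : ℝ)) ≤
      μ ^ 2 - (max 0 (μ - ((2 * N : ℕ) : ℝ))) ^ 2 := by
  induction N with
  | zero => simp [hμ]
  | succ n ih =>
    rw [sum_range_succ, mul_add]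
    have h : 4 * max 0 (μ - ((2 * n + 1 : ℕ) : ℝ)) ≤ (max 0 (μ - ((2 * n : ℕ) : ℝ))) ^ 2 -
        (max 0 (μ - ((2 * (n + 1) : ℕ) : ℝ))) ^ 2 := by
      push_cast
      rcases le_total 0 (μ - (2 * ((n : ℝ) + 1))) with h | h
      · rw [max_eq_right h, max_eq_right (by linarith), max_eq_right (by linarith)]
        nlinarith
      · rw [max_eq_left h]
        rcases le_total 0 (μ - (2 * (n : ℝ) + 1)) with h1 | h1
        · rw [max_eq_right h1, max_eq_right (by linarith)]
          nlinarith [sq_nonneg (μ - 2 * (n : ℝ) - 2)]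
        · rw [max_eq_left h1]
          nlinarith [sq_nonneg (max 0 (μ - (2 * (n : ℝ))))]
    linarith

/-- The number of the units modulo `d` which are close to zero. -/
theorem coprime_sum_le (d : ℕ) (hd : 1 < d) (μ : ℝ) (hμ : 0 ≤ μ) :
    (∑ b ∈ (range d).filter (fun b => Nat.Coprime d b), max 0 (μ - ((min b (d - b) : ℕ) : ℝ))) *
      (Nat.totient (2 * d) : ℝ) ≤ μ ^ 2 * (Nat.totient d : ℝ) := by
  have hφ : (0 : ℝ) ≤ (d.totient : ℝ) := Nat.cast_nonneg _
  by_cases h2 : 2 ∣ d
  · -- `d` is even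
    have ht : (Nat.totient (2 * d) : ℝ) = 2 * (d.totient : ℝ) := by
      rw [Nat.totient_mul_of_prime_of_dvd Nat.prime_two h2]
      push_cast
      ring
    rw [ht]
    obtain ⟨h, rfl⟩ := h2
    have h3 : ∑ b ∈ (range (2 * h)).filter (fun b => Nat.Coprime (2 * h) b),
        max 0 (μ - ((min b (2 * h - b) : ℕ) : ℝ)) ≤
        ∑ b ∈ (range h).image (fun j => 2 * j + 1), max 0 (μ - ((min b (2 * h - b) : ℕ) : ℝ)) := by
      refine sum_le_sum_of_subset_of_nonneg ?_ fun b _ _ => le_max_left _ _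
      intro b hb
      simp only [mem_filter, mem_range, mem_image] at hb ⊢
      have hodd : Odd b := by
        have h4 := Nat.Coprime.coprime_dvd_left (dvd_mul_right 2 h) hb.2
        exact (Nat.coprime_two_left).1 h4
      obtain ⟨j, rfl⟩ := hodd
      exact ⟨j, by omega, rfl⟩
    rw [sum_image (fun a _ b _ hab => by simpa using hab)] at h3
    have h4 : ∑ j ∈ range h, max 0 (μ - ((min (2 * j + 1) (2 * h - (2 * j + 1)) : ℕ) : ℝ)) =
        ∑ j ∈ range h, (fun i : ℕ => max 0 (μ - ((2 * i + 1 : ℕ) : ℝ))) (min j (h - 1 - j)) := by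
      refine sum_congr rfl fun j hj => ?_
      have := mem_range.1 hj
      have h5 : min (2 * j + 1) (2 * h - (2 * j + 1)) = 2 * min j (h - 1 - j) + 1 := by omega
      rw [h5]
    rw [h4] at h3
    have h5 := sum_min_reflect (fun i : ℕ => max 0 (μ - ((2 * i + 1 : ℕ) : ℝ)))
      (fun _ => le_max_left _ _) h
    have h6 := tele_two μ hμ h
    have h7 := sq_nonneg (max 0 (μ - ((2 * h : ℕ) : ℝ)))
    have h8 : 2 * ∑ b ∈ (range (2 * h)).filter (fun b => Nat.Coprime (2 * h) b),
        max 0 (μ - ((min b (2 * h - b) : ℕ) : ℝ)) ≤ μ ^ 2 := by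
      linarith
    nlinarith [mul_le_mul_of_nonneg_right h8 hφ]
  · -- `d` is odd
    have hodd : Odd d := Nat.not_even_iff_odd.1 fun h => h2 h.two_dvd
    have ht : (Nat.totient (2 * d) : ℝ) = (d.totient : ℝ) := by
      rw [Nat.totient_mul (Nat.coprime_two_left.2 hodd)]
      simp
    rw [ht]
    have h3 : ∑ b ∈ (range d).filter (fun b => Nat.Coprime d b),
        max 0 (μ - ((min b (d - b) : ℕ) : ℝ)) ≤
        ∑ b ∈ (range (d - 1)).image (fun j => j + 1), max 0 (μ - ((min b (d - b) : ℕ) : ℝ)) := by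
      refine sum_le_sum_of_subset_of_nonneg ?_ fun b _ _ => le_max_left _ _
      intro b hb
      simp only [mem_filter, mem_range, mem_image] at hb ⊢
      have hb0 : b ≠ 0 := by
        rintro rfl
        have := hb.2
        rw [Nat.coprime_zero_right] at this
        omega
      exact ⟨b - 1, by omega, by omega⟩
    rw [sum_image (fun a _ b _ hab => by simpa using hab)] at h3
    have h4 : ∑ j ∈ range (d - 1), max 0 (μ - ((min (j + 1) (d - (j + 1)) : ℕ) : ℝ)) =
        ∑ j ∈ range (d - 1), (fun i : ℕ => max 0 (μ - ((i + 1 : ℕ) : ℝ)))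
          (min j (d - 1 - 1 - j)) := by
      refine sum_congr rfl fun j hj => ?_
      have := mem_range.1 hj
      have h5 : min (j + 1) (d - (j + 1)) = min j (d - 1 - 1 - j) + 1 := by omega
      rw [h5]
    rw [h4] at h3
    have h5 := sum_min_reflect (fun i : ℕ => max 0 (μ - ((i + 1 : ℕ) : ℝ)))
      (fun _ => le_max_left _ _) (d - 1)
    have h6 := tele_one μ hμ (d - 1)
    have h7 := sq_nonneg (max 0 (μ - ((d - 1 : ℕ) : ℝ)))
    have h8 : ∑ b ∈ (range d).filter (fun b => Nat.Coprime d b),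
        max 0 (μ - ((min b (d - b) : ℕ) : ℝ)) ≤ μ ^ 2 := by
      linarith
    exact mul_le_mul_of_nonneg_right h8 hφ

theorem prod_le (P : Finset ℕ) (hP : ∀ p ∈ P, 2 ≤ p) :
    ∏ p ∈ P, p ≤ (P.card + 1) * ∏ p ∈ P, (p - 1) := by
  induction P using Finset.induction_on_max with
  | empty => simp
  | insert p P hmax ih =>
    have hpP : p ∉ P := fun h => (hmax p h).false
    have ih' := ih fun q hq => hP q (mem_insert_of_mem hq)
    have hcard : P.card + 2 ≤ p := by
      have h1 : P ⊆ Ico 2 p := fun q hq =>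
        mem_Ico.2 ⟨hP q (mem_insert_of_mem hq), hmax q hq⟩
      have h2 := card_le_card h1
      rw [Nat.card_Ico] at h2
      have h3 := hP p (mem_insert_self _ _)
      omega
    rw [prod_insert hpP, prod_insert hpP, card_insert_of_notMem hpP]
    obtain ⟨r, rfl⟩ : ∃ r, p = r + 1 := ⟨p - 1, by omega⟩
    rw [Nat.add_sub_cancel]
    calc (r + 1) * ∏ q ∈ P, q ≤ (r + 1) * ((P.card + 1) * ∏ q ∈ P, (q - 1)) :=
          Nat.mul_le_mul_left _ ih'
      _ = ((r + 1) * (P.card + 1)) * ∏ q ∈ P, (q - 1) := by ring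
      _ ≤ ((P.card + 1 + 1) * r) * ∏ q ∈ P, (q - 1) := by
          refine Nat.mul_le_mul_right _ ?_
          nlinarith
      _ = (P.card + 1 + 1) * (r * ∏ q ∈ P, (q - 1)) := by ring

theorem two_pow_le (P : Finset ℕ) (hP : ∀ p ∈ P, 3 ≤ p) : 2 ^ P.card ≤ ∏ p ∈ P, (p - 1) := by
  rw [← Finset.prod_const]
  exact Finset.prod_le_prod' fun p hp => by have := hP p hp; omega

/-- The quotient of `d` and its totient. -/
theorem le_mul_totient (d r : ℕ) (hd : 0 < d) (h : Nat.totient d ≤ 2 ^ (r + 1)) :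
    2 * d ≤ (r + 3) * Nat.totient (2 * d) := by
  set P := (2 * d).primeFactors with hP
  have hd2 : 2 * d ≠ 0 := by omega
  have h2P : 2 ∈ P := Nat.mem_primeFactors.2 ⟨Nat.prime_two, dvd_mul_right _ _, hd2⟩
  have hprime : ∀ p ∈ P, p.Prime := fun p hp => Nat.prime_of_mem_primeFactors hp
  have h1 := prod_le P fun p hp => (hprime p hp).two_le
  have h2 := Nat.totient_mul_prod_primeFactors (2 * d)
  rw [← hP] at h2
  have hpos : 0 < ∏ p ∈ P, (p - 1) := prod_pos fun p hp => by
    have := (hprime p hp).two_le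
    omega
  have h3 : 2 * d ≤ (P.card + 1) * (2 * d).totient := by
    refine Nat.le_of_mul_le_mul_right ?_ hpos
    calc 2 * d * ∏ p ∈ P, (p - 1) = (2 * d).totient * ∏ p ∈ P, p := h2.symm
      _ ≤ (2 * d).totient * ((P.card + 1) * ∏ p ∈ P, (p - 1)) := Nat.mul_le_mul_left _ h1
      _ = (P.card + 1) * (2 * d).totient * ∏ p ∈ P, (p - 1) := by ring
  have h4 : 2 ^ (P.erase 2).card ≤ ∏ p ∈ P.erase 2, (p - 1) := by
    refine two_pow_le _ fun p hp => ?_
    have h5 := (hprime p (mem_of_mem_erase hp)).two_le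
    have h6 := ne_of_mem_erase hp
    omega
  have h5 : ∏ p ∈ P.erase 2, (p - 1) ≤ d.totient := by
    refine le_trans ?_ (prod_sub_one_le d hd.ne')
    have h6 : P.erase 2 ⊆ d.primeFactors := by
      intro p hp
      have hp1 := hprime p (mem_of_mem_erase hp)
      have hp2 := Nat.dvd_of_mem_primeFactors (mem_of_mem_erase hp)
      refine Nat.mem_primeFactors.2 ⟨hp1, ?_, hd.ne'⟩
      rcases hp1.dvd_mul.1 hp2 with h7 | h7
      · exact absurd ((Nat.prime_dvd_prime_iff_eq hp1 Nat.prime_two).1 h7) (ne_of_mem_erase hp)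
      · exact h7
    refine prod_le_prod_of_subset_of_one_le' h6 fun p hp _ => ?_
    have := (Nat.prime_of_mem_primeFactors hp).two_le
    omega
  have h6 : (P.erase 2).card ≤ r + 1 :=
    (Nat.pow_le_pow_iff_right (by norm_num)).1 ((h4.trans h5).trans h)
  have h7 : (P.erase 2).card + 1 = P.card := Finset.card_erase_add_one h2P
  calc 2 * d ≤ (P.card + 1) * (2 * d).totient := h3
    _ ≤ (r + 3) * (2 * d).totient := Nat.mul_le_mul_right _ (by omega)

end Pool.Agent.H91.RC
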