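import Pool.Agent.H91.RC.Lin
import Pool.Agent.H34.FA.Main

/-!
# The estimate for the exponents of the eigenforms

The estimate `Est` of `H34/FA` from a lower bound for the sum of the distances of the arguments of the
eigenvalues of `g` on `V` from the integers.
-/

set_option autoImplicit false
set_option linter.unusedVariables false
set_option linter.unusedSectionVars false

open Module Finset FF IntermediateField Pool.Agent.Y173.QA Pool.Agent.Y173.QM

namespace Pool.Agent.H91.RC

variable {L : Type} [Field L] [Algebra ℂ L]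

theorem act_order (g : L ≃ₐ[ℂ] L) (θ : Derivation ℂ L L →ₗ[L] L) :
    ((act g) ^ orderOf g) θ = θ := by
  rw [act_pow, pow_orderOf_eq_one]
  have h := act_pow g 0 θ
  rw [pow_zero, pow_zero, Module.End.one_apply] at h
  exact h.symm

/-- twice the sum of the distances of the arguments from the integers is at least `q + 2` -/
def Angles (G : Subgroup (L ≃ₐ[ℂ] L)) (V : Submodule ℂ (Derivation ℂ L L →ₗ[L] L))
    (q t : ℕ) : Prop :=
  ∀ g ∈ G, g ≠ 1 → ∀ ζ : ℂ, IsPrimitiveRoot ζ (orderOf g) →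
    orderOf g * (q + 2) + t ≤
      2 * ∑ b ∈ range (orderOf g), mult (act g) V (ζ ^ b) * min b (orderOf g - b)

variable {G : Subgroup (L ≃ₐ[ℂ] L)} [Finite G] {V : Submodule ℂ (Derivation ℂ L L →ₗ[L] L)}
  (hstab : ∀ g ∈ G, ∀ θ ∈ V, ∃ θ' ∈ V, IsImage g θ θ') [FiniteDimensional ℂ V]

include hstab

theorem act_mem {g : L ≃ₐ[ℂ] L} (hg : g ∈ G) : ∀ x ∈ V, act g x ∈ V := by
  intro x hx
  obtain ⟨y, hy, hxy⟩ := hstab g hg x hx
  rwa [(isImage_iff g x y).1 hxy] at hy

theorem order_pos {g : L ≃ₐ[ℂ] L} (hg : g ∈ G) : 0 < orderOf g := by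
  have h2 := orderOf_pos (⟨g, hg⟩ : G)
  rwa [Subgroup.orderOf_mk] at h2

theorem est_of_angles {M : IntermediateField ℂ L} {d f q t : ℕ} (hq : finrank ℂ V ≤ f + q)
    (ht : t ≤ 1) (h : Angles G V q t) : Pool.Agent.H34.FA.Est G M d f V t := by
  intro g hg hg1 ζ hζ η a hη hind
  have hpos := order_pos hstab hg
  have h1 := weighted (act g) V (Pool.Agent.H34.FA.indep_of_over hind) (fun i => (hη i).1) hpos hζ
    (act_order g) (act_mem hstab hg) (fun i => (hη i).2.1)
    (fun i => ((isImage_iff g _ _).1 (hη i).2.2).symm)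
    (w := fun b => 2 * min b (orderOf g - b)) (W := orderOf g) (fun b hb => by omega) hq
  have h2 := h g hg hg1 ζ hζ
  have h3 : ∑ b ∈ range (orderOf g), mult (act g) V (ζ ^ b) * (2 * min b (orderOf g - b)) =
      2 * ∑ b ∈ range (orderOf g), mult (act g) V (ζ ^ b) * min b (orderOf g - b) := by
    rw [mul_sum]
    exact sum_congr rfl fun b _ => by ring
  have h4 : ∑ i, 2 * min (a i) (orderOf g - a i) ≤ 2 * ∑ i, a i := by
    rw [mul_sum]
    exact sum_le_sum fun i _ => by omega
  rw [h3] at h1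
  have h5 : orderOf g * (q + 2) = q * orderOf g + 2 * orderOf g := by ring
  change _ ≤ ∑ i, 2 * min (a i) (orderOf g - a i) + _ at h1
  omega

theorem angles_of_balanced {q t : ℕ} (ht : t ≤ 1) (hb : ∀ g ∈ G, Balanced (act g) V)
    (hmove : ∀ g ∈ G, g ≠ 1 → mult (act g) V 1 + (3 * (q + 2) + t) ≤ finrank ℂ V) :
    Angles G V q t := by
  intro g hg hg1 ζ hζ
  have hpos := order_pos hstab hg
  have h1 := balanced_le (act g) V (hb g hg) hpos hζ
  have h2 := sum_mult (act g) V hpos hζ (act_order g) (act_mem hstab hg)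
  have h3 := hmove g hg hg1
  rw [Finset.range_eq_Ico, Finset.sum_eq_sum_Ico_succ_bot hpos, pow_zero, zero_add] at h2
  rw [Finset.range_eq_Ico, Finset.sum_eq_sum_Ico_succ_bot hpos, zero_add, Nat.zero_min, mul_zero,
    zero_add]
  generalize ∑ b ∈ Ico 1 (orderOf g), mult (act g) V (ζ ^ b) * min b (orderOf g - b) = X at h1 ⊢
  generalize ∑ b ∈ Ico 1 (orderOf g), mult (act g) V (ζ ^ b) = m at h1 h2
  have h4 : orderOf g * (3 * (q + 2) + t) ≤ orderOf g * m := Nat.mul_le_mul_left _ (by omega)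
  have h5 : orderOf g * (3 * (q + 2) + t) = 3 * (orderOf g * (q + 2)) + orderOf g * t := by ring
  interval_cases t
  · omega
  · omega

end Pool.Agent.H91.RC
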