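import Pool.Agent.H91.RC.Arith

/-!
# The units modulo a prime power

For a prime power `d` the average of `min b (d - b) / d` over the units `b` modulo `d` is at least
`1 / 4`, and `2 d ≤ 3 φ (2 d)`.
-/

set_option autoImplicit false

namespace Pool.Agent.H91.RC

open Finset

theorem sum_min_ge_pp (d : ℕ) (hd : IsPrimePow d) : d * d.totient ≤
    4 * ∑ b ∈ (range d).filter (fun b => Nat.Coprime d b), min b (d - b) := by
  have hd0 : d ≠ 0 := hd.ne_zero
  rw [filter_coprime d hd0]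
  obtain ⟨p, k, hp, hk, rfl⟩ := (isPrimePow_nat_iff d).1 hd
  have hpf : (p ^ k).primeFactors = {p} := Nat.primeFactors_prime_pow hk.ne' hp
  have htot := Nat.totient_eq_mul_prod_factors (p ^ k)
  rw [hpf, prod_singleton] at htot
  rw [hpf]
  have hgoal : (((p ^ k : ℕ) : ℚ)) * ((p ^ k).totient : ℚ) ≤ 4 * (U (p ^ k) {p} : ℚ) →
      p ^ k * (p ^ k).totient ≤ 4 * U (p ^ k) {p} := by
    intro h
    exact_mod_cast h
  apply hgoal
  by_cases h2 : p = 2
  · subst h2
    obtain ⟨j, rfl⟩ : ∃ j, k = j + 1 := ⟨k - 1, by omega⟩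
    have h3 := U_insert Nat.prime_two (P := ∅) (by simp) (by simp) (2 ^ j)
    rw [insert_empty_eq] at h3
    have h4 := U_empty (2 * 2 ^ j)
    have h5 := U_empty (2 ^ j)
    have h6 : ¬ Odd (2 * 2 ^ j) := by simp
    simp only [h6, if_false, sub_zero] at h4
    have h7 : (U (2 * 2 ^ j) ∅ : ℚ) = U (2 * 2 ^ j) {2} + 2 * U (2 ^ j) ∅ := by exact_mod_cast h3
    rw [h7] at h4
    have h8 : 4 * (U (2 ^ j) ∅ : ℚ) ≤ (2 ^ j : ℚ) ^ 2 := by
      rw [h5]
      push_cast
      split_ifs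
      · linarith
      · linarith
    rw [pow_succ, mul_comm (2 ^ j) 2] at htot ⊢
    rw [htot]
    push_cast at h4 ⊢
    nlinarith
  · have hP : ∀ q ∈ ({p} : Finset ℕ), q.Prime ∧ q ≠ 2 := by
      intro q hq
      rw [mem_singleton] at hq
      subst hq
      exact ⟨hp, h2⟩
    have h5 := U_eq {p} hP (p ^ k) (by rw [prod_singleton]; exact dvd_pow_self p hk.ne')
    have hodd : Odd (p ^ k) := (hp.odd_of_ne_two h2).pow
    simp only [hodd, if_true, prod_singleton] at h5
    have h1 : (1 : ℚ) ≤ p := by exact_mod_cast hp.one_lt.le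
    rw [h5, htot]
    nlinarith

theorem le_totient_pp (d : ℕ) (hd : IsPrimePow d) : 2 * d ≤ 3 * Nat.totient (2 * d) := by
  obtain ⟨p, k, hp, hk, rfl⟩ := (isPrimePow_nat_iff d).1 hd
  by_cases h2 : p = 2
  · subst h2
    have h3 : 2 * 2 ^ k = 2 ^ (k + 1) := by ring
    rw [h3, Nat.totient_prime_pow_succ Nat.prime_two]
    have : 2 ^ (k + 1) = 2 * 2 ^ k := by ring
    omega
  · have hodd : Odd (p ^ k) := (hp.odd_of_ne_two h2).pow
    rw [Nat.totient_mul (Nat.coprime_two_left.2 hodd), Nat.totient_two, one_mul]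
    obtain ⟨j, rfl⟩ : ∃ j, k = j + 1 := ⟨k - 1, by omega⟩
    rw [Nat.totient_prime_pow_succ hp]
    have h3 : 3 ≤ p := by
      have := hp.two_le
      omega
    have h4 : 2 * p ≤ 3 * (p - 1) := by omega
    calc 2 * p ^ (j + 1) = p ^ j * (2 * p) := by ring
      _ ≤ p ^ j * (3 * (p - 1)) := Nat.mul_le_mul_left _ h4
      _ = 3 * (p ^ j * (p - 1)) := by ring

end Pool.Agent.H91.RC
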