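import Mathlib

/-!
# The average of the distance to the nearest integer over the primitive fractions

For `d > 1` the average of `min b (d - b) / d` over the units `b` modulo `d` is at least `1 / 6`
(with equality for `d = 6`): if `4` divides `d`, it is `1 / 4`, and otherwise it differs from `1 / 4` by
a product over the primes which divide `d`.
-/

set_option autoImplicit false

namespace Pool.Agent.H91.RC

open Finset

/-- the sum of `min b (N - b)` over the `b < N` which are not divisible by the elements of `P` -/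
def U (N : ℕ) (P : Finset ℕ) : ℕ :=
  ∑ b ∈ (range N).filter (fun b => ∀ p ∈ P, ¬ p ∣ b), min b (N - b)

theorem U_insert {p : ℕ} (hp : p.Prime) {P : Finset ℕ} (hP : ∀ q ∈ P, q.Prime) (hpP : p ∉ P)
    (N : ℕ) : U (p * N) P = U (p * N) (insert p P) + p * U N P := by
  unfold U
  rw [← sum_filter_add_sum_filter_not ((range (p * N)).filter (fun b => ∀ q ∈ P, ¬ q ∣ b))
    (fun b => ¬ p ∣ b)]
  congr 1
  · rw [filter_filter]
    refine sum_congr (filter_congr fun b _ => ?_) fun _ _ => rfl
    simp only [mem_insert, forall_eq_or_imp]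
    exact and_comm
  · rw [mul_sum]
    symm
    refine sum_bij (fun b _ => p * b) ?_ ?_ ?_ ?_
    · intro b hb
      simp only [mem_filter, mem_range, not_not] at hb ⊢
      refine ⟨⟨Nat.mul_lt_mul_of_pos_left hb.1 hp.pos, fun q hq hqb => ?_⟩, dvd_mul_right _ _⟩
      rcases (hP q hq).dvd_mul.1 hqb with h | h
      · have := (Nat.prime_dvd_prime_iff_eq (hP q hq) hp).1 h
        exact hpP (this ▸ hq)
      · exact hb.2 q hq h
    · intro a _ b _ h
      exact Nat.eq_of_mul_eq_mul_left hp.pos h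
    · intro b hb
      simp only [mem_filter, mem_range, not_not] at hb
      obtain ⟨c, rfl⟩ := hb.2
      refine ⟨c, ?_, rfl⟩
      simp only [mem_filter, mem_range]
      exact ⟨lt_of_mul_lt_mul_left hb.1.1 (Nat.zero_le _),
        fun q hq hqc => hb.1.2 q hq (Dvd.dvd.mul_left hqc p)⟩
    · intro b _
      rw [← Nat.mul_sub, Nat.mul_min_mul_left]

theorem U_empty_step (N : ℕ) : U (N + 2) ∅ = U N ∅ + (N + 1) := by
  have h : ∀ M, U M ∅ = ∑ b ∈ range M, min b (M - b) := by
    intro M; unfold U; simp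
  rw [h, h, sum_range_succ']
  have h1 : ∀ c ∈ range (N + 1), min (c + 1) (N + 2 - (c + 1)) = min c (N - c) + 1 := by
    intro c hc
    have := mem_range.1 hc
    omega
  rw [sum_congr rfl h1, sum_add_distrib, sum_range_succ]
  simp

theorem U_empty (N : ℕ) : 4 * (U N ∅ : ℚ) = (N : ℚ) ^ 2 - (if Odd N then 1 else 0) := by
  induction N using Nat.twoStepInduction with
  | zero => simp [U]
  | one => simp [U]
  | more n ih _ =>
    rw [U_empty_step]
    have h : Odd (n + 2) ↔ Odd n := by
      simp [Nat.odd_add, parity_simps]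
    simp only [h]
    push_cast
    linear_combination ih

theorem U_eq (P : Finset ℕ) : (∀ q ∈ P, q.Prime ∧ q ≠ 2) → ∀ N, (∏ q ∈ P, q) ∣ N →
    4 * (U N P : ℚ) = (N : ℚ) ^ 2 * ∏ q ∈ P, (1 - (q : ℚ)⁻¹)
      - (if Odd N then ∏ q ∈ P, (1 - (q : ℚ)) else 0) := by
  induction P using Finset.induction_on with
  | empty =>
    intro _ N _
    simp only [prod_empty, mul_one]
    exact U_empty N
  | insert p P hpP ih =>
    intro hP N hN
    have hp := (hP p (mem_insert_self p P)).1
    have hp2 := (hP p (mem_insert_self p P)).2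
    have hP' : ∀ q ∈ P, q.Prime ∧ q ≠ 2 := fun q hq => hP q (mem_insert_of_mem hq)
    rw [prod_insert hpP] at hN
    obtain ⟨k, rfl⟩ := hN
    rw [mul_assoc]
    have h1 := ih hP' (p * ((∏ q ∈ P, q) * k)) (Dvd.dvd.mul_left (dvd_mul_right _ _) p)
    have h2 := ih hP' ((∏ q ∈ P, q) * k) (dvd_mul_right _ _)
    rw [U_insert hp (fun q hq => (hP' q hq).1) hpP] at h1
    generalize (∏ q ∈ P, q) * k = M at h1 h2 ⊢
    have hodd : Odd (p * M) ↔ Odd M := by
      rw [Nat.odd_mul]
      exact ⟨fun h => h.2, fun h => ⟨hp.odd_of_ne_two hp2, h⟩⟩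
    simp only [hodd] at h1 ⊢
    rw [prod_insert hpP, prod_insert hpP]
    have hp0 : (p : ℚ) ≠ 0 := by exact_mod_cast hp.ne_zero
    push_cast at h1 ⊢
    by_cases hM : Odd M
    · simp only [hM, if_true] at h1 h2 ⊢
      field_simp at h1 h2 ⊢
      linear_combination h1 - p * h2
    · simp only [hM, if_false] at h1 h2 ⊢
      field_simp at h1 h2 ⊢
      linear_combination h1 - p * h2

theorem filter_coprime (d : ℕ) (hd : d ≠ 0) :
    ∑ b ∈ (range d).filter (fun b => Nat.Coprime d b), min b (d - b) = U d d.primeFactors := by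
  unfold U
  refine sum_congr (filter_congr fun b _ => ?_) fun _ _ => rfl
  constructor
  · intro h p hp hpb
    have h1 := Nat.dvd_gcd (Nat.dvd_of_mem_primeFactors hp) hpb
    rw [h.gcd_eq_one] at h1
    exact (Nat.prime_of_mem_primeFactors hp).one_lt.ne' (Nat.dvd_one.1 h1)
  · intro h
    exact Nat.coprime_of_dvd fun p hp hpd hpb => h p (Nat.mem_primeFactors.2 ⟨hp, hpd, hd⟩) hpb

theorem abs_prod_le (P : Finset ℕ) (hP : ∀ q ∈ P, q.Prime) :
    |∏ q ∈ P, (1 - (q : ℚ))| = ((∏ q ∈ P, (q - 1) : ℕ) : ℚ) := by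
  rw [abs_prod, Nat.cast_prod]
  refine prod_congr rfl fun q hq => ?_
  have h1 := (hP q hq).one_lt
  rw [Nat.cast_sub h1.le, abs_sub_comm, abs_of_nonneg]
  · simp
  · have : (1 : ℚ) ≤ q := by exact_mod_cast h1.le
    linarith

theorem prod_sub_one_le (d : ℕ) (hd : d ≠ 0) : ∏ q ∈ d.primeFactors, (q - 1) ≤ d.totient := by
  rw [Nat.totient_eq_div_primeFactors_mul]
  refine Nat.le_mul_of_pos_left _ (Nat.div_pos (Nat.le_of_dvd (Nat.pos_of_ne_zero hd)
    (Nat.prod_primeFactors_dvd d)) (Finset.prod_pos fun q hq =>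
      (Nat.prime_of_mem_primeFactors hq).pos))

/-- The average of the distance to the nearest integer over the primitive fractions with the
denominator `d > 1` is at least `1 / 6`. -/
theorem sum_min_ge (d : ℕ) (hd : 1 < d) : d * d.totient ≤
    6 * ∑ b ∈ (range d).filter (fun b => Nat.Coprime d b), min b (d - b) := by
  have hd0 : d ≠ 0 := by omega
  rcases eq_or_ne d 2 with rfl | hd2
  · decide
  rw [filter_coprime d hd0]
  have htot := Nat.totient_eq_mul_prod_factors d
  have hle := prod_sub_one_le d hd0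
  have hprime : ∀ q ∈ d.primeFactors, q.Prime := fun q hq => Nat.prime_of_mem_primeFactors hq
  have hgoal : (d : ℚ) * d.totient ≤ 6 * (U d d.primeFactors : ℚ) →
      d * d.totient ≤ 6 * U d d.primeFactors := by
    intro h
    exact_mod_cast h
  apply hgoal
  by_cases h2 : 2 ∣ d
  · -- `d` is even
    obtain ⟨N, rfl⟩ := h2
    set P := (2 * N).primeFactors.erase 2 with hPdef
    have h2mem : 2 ∈ (2 * N).primeFactors :=
      Nat.mem_primeFactors.2 ⟨Nat.prime_two, dvd_mul_right _ _, hd0⟩
    have hins : insert 2 P = (2 * N).primeFactors := Finset.insert_erase h2mem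
    have h2P : 2 ∉ P := Finset.notMem_erase _ _
    have hP : ∀ q ∈ P, q.Prime ∧ q ≠ 2 := fun q hq =>
      ⟨hprime q (Finset.mem_of_mem_erase hq), Finset.ne_of_mem_erase hq⟩
    have hdvd : (∏ q ∈ P, q) ∣ N := by
      have h3 := Nat.prod_primeFactors_dvd (2 * N)
      rw [← hins, prod_insert h2P] at h3
      exact Nat.dvd_of_mul_dvd_mul_left (by norm_num) h3
    have h4 := U_insert Nat.prime_two (fun q hq => (hP q hq).1) h2P N
    rw [hins] at h4
    have h5 := U_eq P hP (2 * N) (Dvd.dvd.mul_left hdvd 2)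
    have h6 := U_eq P hP N hdvd
    have h7 : ¬ Odd (2 * N) := by simp
    simp only [h7, if_false, sub_zero] at h5
    rw [← hins, prod_insert h2P] at htot hle
    have h8 := abs_prod_le P fun q hq => (hP q hq).1
    have h9 : ((∏ q ∈ P, (q - 1) : ℕ) : ℚ) ≤ ((2 * N).totient : ℚ) := by
      have : ∏ q ∈ P, (q - 1) ≤ (2 * N).totient := by simpa using hle
      exact_mod_cast this
    rw [← h8] at h9
    have h4' : (U (2 * N) P : ℚ) = U (2 * N) (2 * N).primeFactors + 2 * U N P := by
      exact_mod_cast h4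
    rw [h4'] at h5
    generalize (U (2 * N) (2 * N).primeFactors : ℚ) = S at h5 ⊢
    generalize (U N P : ℚ) = T at h5 h6
    generalize ∏ q ∈ P, (1 - (q : ℚ)) = Q at h6 h9
    have hφ : (0 : ℚ) ≤ ((2 * N).totient : ℚ) := Nat.cast_nonneg _
    generalize ((2 * N).totient : ℚ) = φ at *
    push_cast at h5 h6 htot ⊢
    generalize ∏ q ∈ P, (1 - (q : ℚ)⁻¹) = R at h5 h6 htot
    have h10 : (N : ℚ) * R = φ := by rw [htot]; ring
    have hQ := abs_le.1 h9
    by_cases hN : Odd N
    · simp only [hN, if_true] at h6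
      have hN3 : 3 ≤ N := by
        rcases hN with ⟨k, rfl⟩
        omega
      have hN3' : (3 : ℚ) ≤ N := by exact_mod_cast hN3
      have h11 : 4 * S = 2 * N * φ + 2 * Q := by
        rw [← h10]; linear_combination h5 - 2 * h6
      nlinarith [mul_nonneg (sub_nonneg.2 hN3') hφ]
    · simp only [hN, if_false] at h6
      have h11 : 4 * S = 2 * N * φ := by
        rw [← h10]; linear_combination h5 - 2 * h6
      have hN0 : (0 : ℚ) ≤ N := Nat.cast_nonneg _
      nlinarith [mul_nonneg hN0 hφ]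
  · -- `d` is odd
    have hodd : Odd d := Nat.not_even_iff_odd.1 fun h => h2 h.two_dvd
    have hP : ∀ q ∈ d.primeFactors, q.Prime ∧ q ≠ 2 := fun q hq =>
      ⟨hprime q hq, fun h => h2 (h ▸ Nat.dvd_of_mem_primeFactors hq)⟩
    have h5 := U_eq d.primeFactors hP d (Nat.prod_primeFactors_dvd d)
    simp only [hodd, if_true] at h5
    have h8 := abs_prod_le d.primeFactors hprime
    have h9 : ((∏ q ∈ d.primeFactors, (q - 1) : ℕ) : ℚ) ≤ (d.totient : ℚ) := by
      exact_mod_cast hle
    rw [← h8] at h9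
    have hd3 : 3 ≤ d := by
      rcases hodd with ⟨k, rfl⟩
      omega
    have hd3' : (3 : ℚ) ≤ d := by exact_mod_cast hd3
    have hφ : (0 : ℚ) ≤ (d.totient : ℚ) := Nat.cast_nonneg _
    have h10 := (abs_le.1 h9).2
    have h11 : 4 * (U d d.primeFactors : ℚ) = d * d.totient
        - ∏ q ∈ d.primeFactors, (1 - (q : ℚ)) := by
      rw [h5, htot]; ring
    nlinarith [mul_nonneg (sub_nonneg.2 hd3') hφ]

end Pool.Agent.H91.RC
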