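import Pool.Agent.H91.RC.Arith
import Pool.Graph.R_seed8.Y173.QA.Eig

/-!
# The eigenvalues of an operator of finite order

`mult T V c` is the multiplicity of the eigenvalue `c` of `T` on the invariant subspace `V`.
-/

set_option autoImplicit false

open Module Finset

namespace Pool.Agent.H91.RC

universe u

variable {Ω : Type u} [AddCommGroup Ω] [Module ℂ Ω]

/-- the multiplicity of the eigenvalue `c` of `T` on `V` -/
noncomputable def mult (T : Ω →ₗ[ℂ] Ω) (V : Submodule ℂ Ω) (c : ℂ) : ℕ :=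
  finrank ℂ (V ⊓ End.eigenspace T c : Submodule ℂ Ω)

theorem sum_mult (T : Ω →ₗ[ℂ] Ω) (V : Submodule ℂ Ω) [FiniteDimensional ℂ V] {e : ℕ} (he : 0 < e)
    {ζ : ℂ} (hζ : IsPrimitiveRoot ζ e) (hT : ∀ x, (T ^ e) x = x) (hV : ∀ x ∈ V, T x ∈ V) :
    ∑ b ∈ range e, mult T V (ζ ^ b) = finrank ℂ V := by
  classical
  set T' : V →ₗ[ℂ] V := T.restrict hV with hT'
  set q : Fin e → Submodule ℂ V := fun b => End.eigenspace T' (ζ ^ (b : ℕ)) with hq
  have hqc : ∀ b, q b = (End.eigenspace T (ζ ^ (b : ℕ))).comap V.subtype := by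
    intro b
    ext x
    rw [hq, Submodule.mem_comap]
    change x ∈ End.eigenspace T' _ ↔ _
    rw [End.mem_eigenspace_iff, End.mem_eigenspace_iff, Subtype.ext_iff]
    rfl
  have hinj : Function.Injective fun b : Fin e => ζ ^ (b : ℕ) := by
    intro b b' h
    exact Fin.ext (hζ.pow_inj b.2 b'.2 h)
  have hind : iSupIndep q := (End.eigenspaces_iSupIndep T').comp hinj
  have htop : ⨆ b, q b = ⊤ := by
    rw [eq_top_iff]
    rintro ⟨x, hx⟩ -
    obtain ⟨c, hc, hc1, hc2⟩ := Pool.Agent.Y173.QA.eig_decomp he hζ T hT V hV x hx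
    have h1 : (⟨x, hx⟩ : V) = ∑ b, (⟨c b, hc b⟩ : V) := by
      ext
      rw [AddSubmonoidClass.coe_finsetSum]
      exact hc2.symm
    rw [h1]
    refine Submodule.sum_mem _ fun b _ => Submodule.mem_iSup_of_mem b ?_
    rw [hqc, Submodule.mem_comap, End.mem_eigenspace_iff]
    exact hc1 b
  have h2 := (hind.linearEquiv htop).finrank_eq
  have h3 : finrank ℂ (Π₀ b, q b) = ∑ b, finrank ℂ (q b) :=
    Module.finrank_directSum (R := ℂ) (fun b => (q b : Type u))
  rw [← h2, h3, Finset.sum_range]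
  refine sum_congr rfl fun b _ => ?_
  rw [hqc, mult, ← Submodule.finrank_map_subtype_eq, Submodule.map_comap_subtype]

theorem card_le_mult (T : Ω →ₗ[ℂ] Ω) (V : Submodule ℂ Ω) [FiniteDimensional ℂ V] {f : ℕ}
    {η : Fin f → Ω} (hη : LinearIndependent ℂ η) (hηV : ∀ i, η i ∈ V) {ζ : ℂ}
    {a : Fin f → ℕ} (ha : ∀ i, T (η i) = ζ ^ a i • η i) (b : ℕ) :
    (univ.filter fun i => a i = b).card ≤ mult T V (ζ ^ b) := by
  classical
  have hmem : ∀ i : {i : Fin f // a i = b}, η i.1 ∈ (V ⊓ End.eigenspace T (ζ ^ b) :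
      Submodule ℂ Ω) := by
    rintro ⟨i, rfl⟩
    exact ⟨hηV i, End.mem_eigenspace_iff.2 (ha i)⟩
  have h1 : LinearIndependent ℂ (fun i : {i : Fin f // a i = b} =>
      (⟨η i.1, hmem i⟩ : (V ⊓ End.eigenspace T (ζ ^ b) : Submodule ℂ Ω))) := by
    refine LinearIndependent.of_comp (Submodule.subtype _) ?_
    exact hη.comp _ Subtype.val_injective
  have h2 := h1.fintype_card_le_finrank
  rwa [Fintype.card_subtype] at h2

theorem weighted (T : Ω →ₗ[ℂ] Ω) (V : Submodule ℂ Ω) [FiniteDimensional ℂ V] {f : ℕ}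
    {η : Fin f → Ω} (hη : LinearIndependent ℂ η) (hηV : ∀ i, η i ∈ V) {e : ℕ} (he : 0 < e)
    {ζ : ℂ} (hζ : IsPrimitiveRoot ζ e) (hT : ∀ x, (T ^ e) x = x) (hV : ∀ x ∈ V, T x ∈ V)
    {a : Fin f → ℕ} (hae : ∀ i, a i < e) (ha : ∀ i, T (η i) = ζ ^ a i • η i)
    {w : ℕ → ℕ} {W : ℕ} (hw : ∀ b < e, w b ≤ W) {q : ℕ} (hq : finrank ℂ V ≤ f + q) :
    ∑ b ∈ range e, mult T V (ζ ^ b) * w b ≤ ∑ i, w (a i) + q * W := by
  classical
  set A : ℕ → ℕ := fun b => (univ.filter fun i => a i = b).card with hA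
  have h1 : ∀ b, A b ≤ mult T V (ζ ^ b) := card_le_mult T V hη hηV ha
  have h2 : ∑ b ∈ range e, A b = f := by
    have h3 := Finset.card_eq_sum_card_fiberwise (s := (univ : Finset (Fin f))) (t := range e)
      (f := a) (fun i _ => by simpa using hae i)
    rw [Finset.card_univ, Fintype.card_fin] at h3
    exact h3.symm
  have h3 : ∑ b ∈ range e, A b * w b = ∑ i, w (a i) := by
    rw [← Finset.sum_fiberwise_of_maps_to (s := (univ : Finset (Fin f))) (t := range e)
      (g := a) (fun i _ => by simpa using hae i)]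
    refine sum_congr rfl fun b _ => ?_
    rw [hA, Finset.sum_congr rfl (g := fun _ => w b) (fun i hi => by
      rw [(mem_filter.1 hi).2]), sum_const, smul_eq_mul]
  have h4 := sum_mult T V he hζ hT hV
  have h5 : ∑ b ∈ range e, mult T V (ζ ^ b) * w b =
      ∑ b ∈ range e, A b * w b + ∑ b ∈ range e, (mult T V (ζ ^ b) - A b) * w b := by
    rw [← sum_add_distrib]
    refine sum_congr rfl fun b _ => ?_
    rw [← add_mul, Nat.add_sub_cancel' (h1 b)]
  have h6 : ∑ b ∈ range e, (mult T V (ζ ^ b) - A b) * w b ≤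
      ∑ b ∈ range e, (mult T V (ζ ^ b) - A b) * W :=
    sum_le_sum fun b hb => Nat.mul_le_mul_left _ (hw b (mem_range.1 hb))
  rw [← sum_mul] at h6
  have h7 : ∑ b ∈ range e, (mult T V (ζ ^ b) - A b) + f = finrank ℂ V := by
    rw [← h4, ← h2, ← sum_add_distrib]
    exact sum_congr rfl fun b _ => Nat.sub_add_cancel (h1 b)
  have h8 : (∑ b ∈ range e, (mult T V (ζ ^ b) - A b)) * W ≤ q * W :=
    Nat.mul_le_mul_right _ (by omega)
  rw [h5, h3]
  omega

/-- The classes of the exponents with the same greatest common divisor. -/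
theorem class_sum {e δ k : ℕ} (he : e = δ * k) (hδ : 0 < δ) (hk : 1 < k) (F : ℕ → ℕ) :
    ∑ b ∈ (Ico 1 e).filter (fun b => Nat.gcd e b = δ), F b =
      ∑ b ∈ (range k).filter (fun b => Nat.Coprime k b), F (δ * b) := by
  subst he
  symm
  refine sum_bij (fun b _ => δ * b) ?_ ?_ ?_ ?_
  · intro b hb
    simp only [mem_filter, mem_range, mem_Ico] at hb ⊢
    have hb0 : b ≠ 0 := by
      rintro rfl
      have := hb.2
      rw [Nat.coprime_zero_right] at this
      omega
    refine ⟨⟨Nat.mul_pos hδ (Nat.pos_of_ne_zero hb0), Nat.mul_lt_mul_of_pos_left hb.1 hδ⟩, ?_⟩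
    rw [Nat.gcd_mul_left, hb.2.gcd_eq_one, mul_one]
  · intro b _ b' _ h
    exact Nat.eq_of_mul_eq_mul_left hδ h
  · intro b hb
    simp only [mem_filter, mem_Ico] at hb
    obtain ⟨c, rfl⟩ : δ ∣ b := hb.2 ▸ Nat.gcd_dvd_right _ _
    refine ⟨c, ?_, rfl⟩
    simp only [mem_filter, mem_range]
    refine ⟨lt_of_mul_lt_mul_left hb.1.2 (Nat.zero_le _), ?_⟩
    have h1 := hb.2
    rw [Nat.gcd_mul_left] at h1
    exact Nat.eq_of_mul_eq_mul_left hδ (h1.trans (mul_one δ).symm)
  · intro b _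
    rfl

theorem class_le {e : ℕ} {N : ℕ → ℕ} (hN : ∀ b b', 0 < b → b < e → 0 < b' → b' < e →
    Nat.gcd e b = Nat.gcd e b' → N b = N b') :
    e * ∑ b ∈ Ico 1 e, N b ≤ 6 * ∑ b ∈ Ico 1 e, N b * min b (e - b) := by
  rcases Nat.eq_zero_or_pos e with rfl | he
  · simp
  have hmaps : ∀ b ∈ Ico 1 e, Nat.gcd e b ∈ e.divisors := fun b _ =>
    Nat.mem_divisors.2 ⟨Nat.gcd_dvd_left _ _, he.ne'⟩
  rw [← Finset.sum_fiberwise_of_maps_to hmaps, ← Finset.sum_fiberwise_of_maps_to hmaps (fun b =>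
    N b * min b (e - b)), mul_sum, mul_sum]
  refine sum_le_sum fun δ hδ => ?_
  obtain ⟨k, hk⟩ := (Nat.mem_divisors.1 hδ).1
  have hδ0 : 0 < δ := Nat.pos_of_mem_divisors hδ
  by_cases hk1 : 1 < k
  · rw [class_sum hk hδ0 hk1, class_sum hk hδ0 hk1]
    have h1 : ∀ b ∈ (range k).filter (fun b => Nat.Coprime k b), N (δ * b) = N δ := by
      intro b hb
      simp only [mem_filter, mem_range] at hb
      have hb0 : b ≠ 0 := by
        rintro rfl
        have := hb.2
        rw [Nat.coprime_zero_right] at this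
        omega
      subst hk
      refine hN _ _ (Nat.mul_pos hδ0 (Nat.pos_of_ne_zero hb0))
        (Nat.mul_lt_mul_of_pos_left hb.1 hδ0) hδ0 ?_ ?_
      · calc δ = δ * 1 := (mul_one δ).symm
          _ < δ * k := Nat.mul_lt_mul_of_pos_left hk1 hδ0
      · rw [Nat.gcd_mul_left, hb.2.gcd_eq_one, mul_one, Nat.gcd_mul_right_left]
    rw [sum_congr rfl h1, sum_const, smul_eq_mul]
    have h2 : ∑ b ∈ (range k).filter (fun b => Nat.Coprime k b),
        N (δ * b) * min (δ * b) (e - δ * b) =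
        N δ * δ * ∑ b ∈ (range k).filter (fun b => Nat.Coprime k b), min b (k - b) := by
      rw [mul_sum]
      refine sum_congr rfl fun b hb => ?_
      rw [h1 b hb, hk, ← Nat.mul_sub, Nat.mul_min_mul_left]
      ring
    rw [h2]
    have h3 := sum_min_ge k hk1
    have h4 : ((range k).filter (fun b => Nat.Coprime k b)).card = k.totient :=
      (Nat.totient_eq_card_coprime k).symm
    rw [h4, hk]
    calc δ * k * (k.totient * N δ) = N δ * δ * (k * k.totient) := by ring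
      _ ≤ N δ * δ * (6 * ∑ b ∈ (range k).filter (fun b => Nat.Coprime k b), min b (k - b)) :=
        Nat.mul_le_mul_left _ h3
      _ = 6 * (N δ * δ * ∑ b ∈ (range k).filter (fun b => Nat.Coprime k b), min b (k - b)) := by
        ring
  · have h5 : (Ico 1 e).filter (fun b => Nat.gcd e b = δ) = ∅ := by
      rw [Finset.filter_eq_empty_iff]
      intro b hb h6
      have hk2 : k = 1 := by
        rcases Nat.eq_zero_or_pos k with rfl | h
        · simp at hk; omega
        · omega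
      rw [hk2, mul_one] at hk
      have h7 : e ∣ b := by
        rw [hk, ← h6]
        exact Nat.gcd_dvd_right _ _
      have h8 := Nat.le_of_dvd (by have := (mem_Ico.1 hb).1; omega) h7
      have h9 := (mem_Ico.1 hb).2
      omega
    rw [h5]
    simp

/-- The eigenvalues of `T` on the sum of `V` and its complex conjugate are rational: primitive
roots of unity of the same order have the same multiplicity. -/
def Balanced (T : Ω →ₗ[ℂ] Ω) (V : Submodule ℂ Ω) : Prop :=
  ∀ (n : ℕ) (c c' : ℂ), IsPrimitiveRoot c n → IsPrimitiveRoot c' n →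
    mult T V c + mult T V c⁻¹ = mult T V c' + mult T V c'⁻¹

theorem balanced_le (T : Ω →ₗ[ℂ] Ω) (V : Submodule ℂ Ω) (hb : Balanced T V) {e : ℕ} (he : 0 < e)
    {ζ : ℂ} (hζ : IsPrimitiveRoot ζ e) :
    e * ∑ b ∈ Ico 1 e, mult T V (ζ ^ b) ≤
      6 * ∑ b ∈ Ico 1 e, mult T V (ζ ^ b) * min b (e - b) := by
  set n : ℕ → ℕ := fun b => mult T V (ζ ^ b) with hn
  have hinv : ∀ b, b < e → n (e - b) = mult T V (ζ ^ b)⁻¹ := by
    intro b hbe
    rw [hn]
    change mult T V (ζ ^ (e - b)) = _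
    congr 1
    refine eq_inv_of_mul_eq_one_left ?_
    rw [← pow_add, Nat.sub_add_cancel hbe.le, hζ.pow_eq_one]
  have hprim : ∀ b, 0 < b → b < e → IsPrimitiveRoot (ζ ^ b) (e / Nat.gcd e b) := by
    intro b hb0 hbe
    have h1 : orderOf (ζ ^ b) = e / Nat.gcd e b := by
      rw [orderOf_pow' _ hb0.ne', ← hζ.eq_orderOf]
    rw [← h1]
    exact IsPrimitiveRoot.orderOf _
  have h1 := class_le (e := e) (N := fun b => n b + n (e - b)) (by
    intro b b' hb0 hbe hb0' hbe' hgcd
    change n b + n (e - b) = n b' + n (e - b')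
    rw [hinv b hbe, hinv b' hbe']
    exact hb _ _ _ (hprim b hb0 hbe) (hgcd ▸ hprim b' hb0' hbe'))
  have hrefl : ∀ F : ℕ → ℕ, ∑ b ∈ Ico 1 e, F (e - b) = ∑ b ∈ Ico 1 e, F b := by
    intro F
    have := Finset.sum_Ico_reflect F 1 (m := e) (n := e) (by omega)
    rw [this]
    congr 1
    congr 1
    · omega
  have h2 : ∑ b ∈ Ico 1 e, (n b + n (e - b)) = 2 * ∑ b ∈ Ico 1 e, n b := by
    rw [sum_add_distrib, hrefl n]
    ring
  have h3 : ∑ b ∈ Ico 1 e, (n b + n (e - b)) * min b (e - b) =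
      2 * ∑ b ∈ Ico 1 e, n b * min b (e - b) := by
    have h4 : ∑ b ∈ Ico 1 e, n (e - b) * min b (e - b) = ∑ b ∈ Ico 1 e, n b * min b (e - b) := by
      rw [← hrefl fun b => n b * min b (e - b)]
      refine sum_congr rfl fun b hb => ?_
      have := mem_Ico.1 hb
      have h5 : e - (e - b) = b := by omega
      rw [h5, min_comm]
    rw [sum_congr rfl fun b _ => add_mul _ _ _, sum_add_distrib, h4]
    ring
  rw [h2, h3] at h1
  nlinarith

end Pool.Agent.H91.RC
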